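import Mathlib
import Pool.Agent.Run7.h906.HeptD

namespace Pool.Agent.Results.MP_268afb_gt.CrossingNumber

open Pool.Agent.Run7.h906

/-- A nontrivial free knot that has a diagram with all chords even has no diagram with fewer
than seven chords, and its only possible diagram with seven chords is the heptagon. In
particular the heptagon free knot is trivial, or it has crossing number seven and the heptagon
is its only diagram with seven chords. -/
theorem result :
    (∀ u : List ℕ, Gauss u → (∀ a ∈ u, isOdd u a = false) →
      FreeEq u [] ∨ ∀ w, FreeEq w u →
        14 ≤ w.length ∧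
        (w.length = 14 → ∃ (n : ℕ) (σ : Equiv.Perm ℕ), w = (H7.rotate n).map σ)) ∧
    (FreeEq H7 [] ∨ ∀ w, FreeEq w H7 →
        14 ≤ w.length ∧
        (w.length = 14 → ∃ (n : ℕ) (σ : Equiv.Perm ℕ), w = (H7.rotate n).map σ)) := by
  constructor
  · intro u hu he
    apply even_general u hu
    unfold strip
    rw [List.filter_eq_self]
    intro a ha
    rw [he a ha]
    rfl
  · exact even_general H7 H7_gauss H7_even

end Pool.Agent.Results.MP_268afb_gt.CrossingNumber
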